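import Mathlib

namespace Pool.Agent.Results.MP_2a6590_nt.Half

open Finset

/-- `A` is valid mod `N`: the only multiplicities of total `|A|` with the sum of `A` are all ones. -/
def Valid {N : ℕ} (A : Finset (ZMod N)) : Prop :=
  ∀ m : ZMod N → ℕ, ∑ a ∈ A, m a = A.card → ∑ a ∈ A, (m a : ZMod N) * a = ∑ a ∈ A, a →
    ∀ a ∈ A, m a = 1

lemma key {N : ℕ} (A : Finset (ZMod N)) (hA : Valid A) (z : ZMod N) (hz : z ∈ A)
    (S T : Finset (ZMod N)) (hS : S ⊆ A.erase z) (hT : T ⊆ A.erase z) (hc : T.card ≤ S.card)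
    (h : ∑ a ∈ S, (a - z) = ∑ a ∈ T, (a - z)) : S = T := by
  have hS' : S ⊆ A := hS.trans (erase_subset _ _)
  have hT' : T ⊆ A := hT.trans (erase_subset _ _)
  obtain ⟨d, hd⟩ := Nat.exists_eq_add_of_le hc
  have fT : A.filter (· ∈ T) = T := by rw [filter_mem_eq_inter, inter_eq_right.2 hT']
  have fS : A.filter (fun a => ¬ a ∈ S) = A \ S := by ext a; simp
  have k := hA (fun a => (if a ∈ T then 1 else 0) + (if a ∈ S then 0 else 1) + (if a = z then d else 0))
    (by
      rw [sum_add_distrib, sum_add_distrib, sum_ite_eq', if_pos hz, sum_ite, sum_ite, fT, fS]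
      have := card_sdiff_add_card_eq_card hS'
      simp only [sum_const, smul_eq_mul, mul_one, mul_zero, add_zero, zero_add]
      omega)
    (by
      simp only [Nat.cast_add, Nat.cast_ite, Nat.cast_one, Nat.cast_zero, add_mul, ite_mul, one_mul,
        zero_mul]
      rw [sum_add_distrib, sum_add_distrib, sum_ite_eq', if_pos hz, sum_ite, sum_ite, fT, fS]
      have e := sum_sdiff (f := fun a : ZMod N => a) hS'
      simp only [sum_sub_distrib, sum_const, nsmul_eq_mul, hd, Nat.cast_add] at h
      simp only [sum_const_zero, add_zero, zero_add]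
      linear_combination e - h)
  ext a
  by_cases ha : a ∈ A.erase z
  · have k1 := k a (mem_of_mem_erase ha)
    simp only [if_neg (ne_of_mem_erase ha)] at k1
    by_cases h1 : a ∈ T <;> by_cases h2 : a ∈ S <;> simp_all
  · exact ⟨fun h1 => absurd (hS h1) ha, fun h1 => absurd (hT h1) ha⟩

theorem result (n N : ℕ) (hn : 2 ≤ n) (hN : 1 ≤ N) (A : Finset (ZMod N)) (hA : A.card = n)
    (hv : Valid A) : 2 ^ (n - 1) ≤ N := by
  have : NeZero N := ⟨by omega⟩
  obtain ⟨z, hz⟩ : A.Nonempty := card_pos.1 (by omega)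
  have h := card_le_card_of_injOn (s := (A.erase z).powerset) (t := univ)
    (fun S => ∑ a ∈ S, (a - z)) (fun _ _ => mem_coe.2 (mem_univ _)) (by
      intro S hS T hT e
      have hS' := mem_powerset.1 (mem_coe.1 hS)
      have hT' := mem_powerset.1 (mem_coe.1 hT)
      rcases le_total T.card S.card with c | c
      · exact key A hv z hz S T hS' hT' c e
      · exact (key A hv z hz T S hT' hS' c e.symm).symm)
  rwa [card_powerset, card_erase_of_mem hz, hA, card_univ, ZMod.card] at h

end Pool.Agent.Results.MP_2a6590_nt.Half
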